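import Pool.Agent.Lib.MP_aecbcf_co.AG.Ind2

/-!
# Bipartite vertex cuts in sparse graphs
-/

set_option autoImplicit false

namespace Pool.Agent.Results.MP_aecbcf_co.AllGraphs

open Finset Pool.Agent.Results.MP_aecbcf_co.FourColourable

/-- **Main theorem.** Every finite graph with `n ≥ 4` vertices and `e` edges, where `e < 3 n - 6`
and `8 e < 21 n - 24`, has a bipartite cut. (The second condition is superfluous for `n ≤ 10`, the
first one for `n ≥ 8`.) -/
theorem result {V : Type*} [Fintype V] [DecidableEq V] (G : SimpleGraph V) [DecidableRel G.Adj]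
    (hn : 4 ≤ Fintype.card V)
    (h3 : (G.edgeFinset.card : ℤ) < 3 * Fintype.card V - 6)
    (h8 : 8 * (G.edgeFinset.card : ℤ) < 21 * Fintype.card V - 24) : HasBipartiteCut G := by
  by_contra hG
  have h := Pool.Agent.Lib.MP_aecbcf_co.AG.bound2 (Fintype.card V) G.Adj
    (fun _ _ h => h.symm) (fun x => G.loopless.irrefl x) univ card_univ hn
    (fun h => hG (Pool.Agent.Lib.MP_aecbcf_co.Ind.cut_graph G h))
  rw [m2_univ] at h
  omega

end Pool.Agent.Results.MP_aecbcf_co.AllGraphs
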