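import Pool.Agent.Lib.MP_aecbcf_co.Heavy

/-!
# Bipartite vertex cuts in sparse graphs without `K_4`
-/

set_option autoImplicit false

namespace Pool.Agent.Results.MP_aecbcf_co.CliqueFree

open Finset Pool.Agent.Results.MP_aecbcf_co.FourColourable Pool.Agent.Lib.MP_aecbcf_co.Heavy

section

variable {V : Type*} [Fintype V] [DecidableEq V] {G : SimpleGraph V} [DecidableRel G.Adj]

theorem nclique4 {a b c d : V} (h1 : G.Adj a b) (h2 : G.Adj a c) (h3 : G.Adj a d)
    (h4 : G.Adj b c) (h5 : G.Adj b d) (h6 : G.Adj c d) : G.IsNClique 4 {a, b, c, d} := by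
  rw [SimpleGraph.isNClique_iff, SimpleGraph.isClique_iff]
  constructor
  · intro x hx y hy hxy
    simp only [coe_insert, coe_singleton, Set.mem_insert_iff, Set.mem_singleton_iff] at hx hy
    rcases hx with hx | hx | hx | hx <;> rcases hy with hy | hy | hy | hy <;> rw [hx, hy] <;>
      first
      | exact absurd (hx.trans hy.symm) hxy
      | assumption
      | (apply SimpleGraph.Adj.symm; assumption)
  · rw [card_insert_of_notMem, card_insert_of_notMem, card_insert_of_notMem, card_singleton]
    · simp [h6.ne]
    · simp [h4.ne, h5.ne]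
    · simp [h1.ne, h2.ne, h3.ne]

theorem no4 (hf : G.CliqueFree 4) {a b c d : V} (h1 : G.Adj a b) (h2 : G.Adj a c)
    (h3 : G.Adj a d) (h4 : G.Adj b c) (h5 : G.Adj b d) (h6 : G.Adj c d) : False :=
  hf _ (nclique4 h1 h2 h3 h4 h5 h6)

/-- exchange argument -/
theorem exch {S : Finset V} (hS : IsStable G S) (hmax : ∀ T, IsStable G T → wt G T ≤ wt G S)
    {T R : Finset V} (hT : IsStable G T) (hTS : Disjoint T S) (hR : R ⊆ S)
    (h : ∀ x ∈ T, ∀ y ∈ S, G.Adj x y → y ∈ R) : wt G T ≤ wt G R := by
  have h1 : IsStable G (T ∪ (S \ R)) := by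
    intro x hx y hy hxy
    rw [mem_union, mem_sdiff] at hx hy
    rcases hx with hx | hx <;> rcases hy with hy | hy
    · exact hT x hx y hy hxy
    · exact hy.2 (h x hx y hy.1 hxy)
    · exact hx.2 (h y hy x hx.1 hxy.symm)
    · exact hS x hx.1 y hy.1 hxy
  have h2 := hmax _ h1
  have h3 : Disjoint T (S \ R) := disjoint_of_subset_right sdiff_subset hTS
  have h4 : wt G (T ∪ (S \ R)) = wt G T + wt G (S \ R) := by
    unfold wt; exact sum_union h3
  have h5 : wt G (S \ R) + wt G R = wt G S := by
    unfold wt; exact sum_sdiff hR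
  linarith

/-- a triangle-free set of at most four vertices is the union of two stable sets -/
theorem two_sets {N : Finset V} (hc : N.card ≤ 4)
    (ht : ∀ x ∈ N, ∀ y ∈ N, ∀ z ∈ N, G.Adj x y → G.Adj y z → ¬ G.Adj x z) :
    ∃ B C : Finset V, IsStable G B ∧ IsStable G C ∧ ∀ x, x ∈ N ↔ x ∈ B ∨ x ∈ C := by
  classical
  obtain ⟨c⟩ := two_col (G.induce (N : Set V)) (by simpa using hc) (by
    rintro ⟨x, hx⟩ ⟨y, hy⟩ ⟨z, hz⟩ hxy hyz hxz
    exact ht x hx y hy z hz hxy hyz hxz)
  refine ⟨N.filter fun x => ∃ h : x ∈ (N : Set V), c ⟨x, h⟩ = 0,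
    N.filter fun x => ∃ h : x ∈ (N : Set V), c ⟨x, h⟩ = 1, ?_, ?_, ?_⟩
  · intro x hx y hy hxy
    obtain ⟨-, hx1, hx2⟩ := mem_filter.1 hx
    obtain ⟨-, hy1, hy2⟩ := mem_filter.1 hy
    have hxy' : (G.induce (N : Set V)).Adj ⟨x, hx1⟩ ⟨y, hy1⟩ := hxy
    exact c.valid hxy' (hx2.trans hy2.symm)
  · intro x hx y hy hxy
    obtain ⟨-, hx1, hx2⟩ := mem_filter.1 hx
    obtain ⟨-, hy1, hy2⟩ := mem_filter.1 hy
    have hxy' : (G.induce (N : Set V)).Adj ⟨x, hx1⟩ ⟨y, hy1⟩ := hxy
    exact c.valid hxy' (hx2.trans hy2.symm)
  · intro x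
    constructor
    · intro hx
      have h2 : c ⟨x, hx⟩ = 0 ∨ c ⟨x, hx⟩ = 1 := by
        generalize c ⟨x, hx⟩ = i
        fin_cases i <;> simp
      rcases h2 with h2 | h2
      · exact Or.inl (mem_filter.2 ⟨hx, hx, h2⟩)
      · exact Or.inr (mem_filter.2 ⟨hx, hx, h2⟩)
    · rintro (hx | hx)
      · exact (mem_filter.1 hx).1
      · exact (mem_filter.1 hx).1

theorem cut_of {A B C : Finset V} (hB : IsStable G B) (hC : IsStable G C)
    (hAB : ∀ x ∈ A, x ∉ B) (hAC : ∀ x ∈ A, x ∉ C)
    (hcl : ∀ x ∈ A, ∀ y, G.Adj x y → y ∈ A ∨ y ∈ B ∨ y ∈ C)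
    {a w : V} (ha : a ∈ A) (hw : w ∉ A) (hwB : w ∉ B) (hwC : w ∉ C) : HasBipartiteCut G := by
  classical
  refine ⟨(B ∪ C : Finset V), ?_, ?_⟩
  · refine ⟨SimpleGraph.Coloring.mk (fun x => if x.1 ∈ B then (0 : Fin 2) else 1) ?_⟩
    rintro ⟨x, hx⟩ ⟨y, hy⟩ hxy
    have hxy' : G.Adj x y := hxy
    rw [mem_coe, mem_union] at hx hy
    by_cases hxS : x ∈ B
    · by_cases hyS : y ∈ B
      · exact absurd hxy' (hB x hxS y hyS)
      · simp [hxS, hyS]
    · by_cases hyS : y ∈ B
      · simp [hxS, hyS]
      · exact absurd hxy' (hC x (hx.resolve_left hxS) y (hy.resolve_left hyS))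
  · intro hP
    have hout : ∀ x, x ∉ B → x ∉ C → x ∈ ((B ∪ C : Finset V) : Set V)ᶜ := by
      intro x h1 h2 hx
      rw [mem_coe, mem_union] at hx
      exact hx.elim h1 h2
    have hr := hP ⟨a, hout a (hAB a ha) (hAC a ha)⟩ ⟨w, hout w hwB hwC⟩
    have key : ∀ x y : (((B ∪ C : Finset V) : Set V)ᶜ : Set V),
        (G.induce ((B ∪ C : Finset V) : Set V)ᶜ).Walk x y → x.1 ∈ A → y.1 ∈ A := by
      intro x y p
      induction p with
      | nil => exact id
      | @cons x y z hxy _ ih =>
        intro hx
        apply ih
        have hxy' : G.Adj x.1 y.1 := hxy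
        have hy := y.2
        rcases hcl _ hx _ hxy' with h | h | h
        · exact h
        · exact absurd (by rw [mem_coe]; exact mem_union_left _ h) hy
        · exact absurd (by rw [mem_coe]; exact mem_union_right _ h) hy
    obtain ⟨p⟩ := hr
    exact hw (key _ _ p ha)

theorem exists_outside {A : Finset V} {k : ℕ} (hA : A.card ≤ k) (hk : k < Fintype.card V) :
    ∃ w, w ∉ A := by
  by_contra h
  push Not at h
  rw [eq_univ_iff_forall.2 h, card_univ] at hA
  omega

/-- the neighbourhood of a vertex of degree five induces a 2-regular graph -/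
theorem two (hf : G.CliqueFree 4) (hG : ¬ HasBipartiteCut G) (hn : 11 ≤ Fintype.card V) {z x : V}
    (hz : G.degree z = 5) (hx : G.Adj z x) :
    ((G.neighborFinset z).filter fun y => G.Adj x y).card = 2 := by
  classical
  have hN : (G.neighborFinset z).card = 5 := by
    rw [SimpleGraph.card_neighborFinset_eq_degree, hz]
  have hzN : z ∉ G.neighborFinset z := by simp
  have star : ∀ B C : Finset V, IsStable G B → IsStable G C →
      (∀ y, y ∈ G.neighborFinset z ↔ y ∈ B ∨ y ∈ C) → False := by
    intro B C hB hC h
    obtain ⟨w, hw⟩ := exists_outside (A := insert z (G.neighborFinset z)) (k := 6)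
      (by rw [card_insert_of_notMem hzN, hN]) (by omega)
    rw [mem_insert, h] at hw
    push Not at hw
    rw [h] at hzN
    push Not at hzN
    apply hG
    refine cut_of (A := {z}) hB hC ?_ ?_ ?_ (mem_singleton_self z) (w := w) ?_ hw.2.1 hw.2.2
    · intro y hy
      rw [mem_singleton] at hy
      rw [hy]; exact hzN.1
    · intro y hy
      rw [mem_singleton] at hy
      rw [hy]; exact hzN.2
    · intro y hy u hyu
      rw [mem_singleton] at hy
      rw [hy] at hyu
      exact Or.inr ((h u).1 ((SimpleGraph.mem_neighborFinset _ _ _).2 hyu))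
    · rw [mem_singleton]; exact hw.1
  have hxN : x ∈ G.neighborFinset z := (SimpleGraph.mem_neighborFinset _ _ _).2 hx
  have hDst : IsStable G ((G.neighborFinset z).filter fun y => G.Adj x y) := by
    intro u hu v hv huv
    rw [mem_filter, SimpleGraph.mem_neighborFinset] at hu hv
    exact no4 hf hx hu.1 hv.1 hu.2 hv.2 huv
  by_contra hne
  rcases Nat.lt_or_gt_of_ne hne with hlt | hgt
  · -- at most one neighbour
    obtain ⟨B, C, hB, hC, hBC⟩ := two_sets (G := G) (N := (G.neighborFinset z).erase x)
      (by rw [card_erase_of_mem hxN, hN]) (by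
        intro u hu v hv w hw huv hvw huw
        rw [mem_erase, SimpleGraph.mem_neighborFinset] at hu hv hw
        exact no4 hf hu.2 hv.2 hw.2 huv huw hvw)
    have hone : ∀ u v, u ∈ G.neighborFinset z → v ∈ G.neighborFinset z → G.Adj x u → G.Adj x v →
        u = v := by
      intro u v hu hv hxu hxv
      have h1 : ((G.neighborFinset z).filter fun y => G.Adj x y).card ≤ 1 := by omega
      exact card_le_one.1 h1 u (mem_filter.2 ⟨hu, hxu⟩) v (mem_filter.2 ⟨hv, hxv⟩)
    have hsubB : ∀ u ∈ B, u ∈ G.neighborFinset z := fun u hu =>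
      mem_of_mem_erase ((hBC u).2 (Or.inl hu))
    have hsubC : ∀ u ∈ C, u ∈ G.neighborFinset z := fun u hu =>
      mem_of_mem_erase ((hBC u).2 (Or.inr hu))
    have hxB : x ∉ B := fun h => (ne_of_mem_erase ((hBC x).2 (Or.inl h))) rfl
    have hxC : x ∉ C := fun h => (ne_of_mem_erase ((hBC x).2 (Or.inr h))) rfl
    by_cases hb : ∃ u ∈ B, G.Adj x u
    · -- put x into C
      obtain ⟨u, huB, hxu⟩ := hb
      by_cases huC : u ∈ C
      · -- u in both; remove u from C
        refine star B (insert x (C.erase u)) hB ?_ ?_
        · intro v hv w hw hvw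
          rw [mem_insert, mem_erase] at hv hw
          rcases hv with rfl | hv <;> rcases hw with rfl | hw
          · exact hvw.ne rfl
          · exact hw.1 (hone w u (hsubC w hw.2) (hsubB u huB) hvw hxu)
          · exact hv.1 (hone v u (hsubC v hv.2) (hsubB u huB) hvw.symm hxu)
          · exact hC v hv.2 w hw.2 hvw
        · intro y
          constructor
          · intro hy
            by_cases hyx : y = x
            · exact Or.inr (mem_insert.2 (Or.inl hyx))
            · rcases (hBC y).1 (mem_erase.2 ⟨hyx, hy⟩) with h | h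
              · exact Or.inl h
              · by_cases hyu : y = u
                · rw [hyu]; exact Or.inl huB
                · exact Or.inr (mem_insert.2 (Or.inr (mem_erase.2 ⟨hyu, h⟩)))
          · rintro (h | h)
            · exact hsubB y h
            · rcases mem_insert.1 h with h | h
              · rw [h]; exact hxN
              · exact hsubC y (mem_of_mem_erase h)
      · refine star B (insert x C) hB ?_ ?_
        · intro v hv w hw hvw
          rw [mem_insert] at hv hw
          rcases hv with rfl | hv <;> rcases hw with rfl | hw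
          · exact hvw.ne rfl
          · have := hone w u (hsubC w hw) (hsubB u huB) hvw hxu
            rw [this] at hw; exact huC hw
          · have := hone v u (hsubC v hv) (hsubB u huB) hvw.symm hxu
            rw [this] at hv; exact huC hv
          · exact hC v hv w hw hvw
        · intro y
          constructor
          · intro hy
            by_cases hyx : y = x
            · exact Or.inr (mem_insert.2 (Or.inl hyx))
            · rcases (hBC y).1 (mem_erase.2 ⟨hyx, hy⟩) with h | h
              · exact Or.inl h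
              · exact Or.inr (mem_insert.2 (Or.inr h))
          · rintro (h | h)
            · exact hsubB y h
            · rcases mem_insert.1 h with h | h
              · rw [h]; exact hxN
              · exact hsubC y h
    · push Not at hb
      refine star (insert x B) C ?_ hC ?_
      · intro v hv w hw hvw
        rw [mem_insert] at hv hw
        rcases hv with rfl | hv <;> rcases hw with rfl | hw
        · exact hvw.ne rfl
        · exact hb w hw hvw
        · exact hb v hv hvw.symm
        · exact hB v hv w hw hvw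
      · intro y
        constructor
        · intro hy
          by_cases hyx : y = x
          · exact Or.inl (mem_insert.2 (Or.inl hyx))
          · rcases (hBC y).1 (mem_erase.2 ⟨hyx, hy⟩) with h | h
            · exact Or.inl (mem_insert.2 (Or.inr h))
            · exact Or.inr h
        · rintro (h | h)
          · rcases mem_insert.1 h with h | h
            · rw [h]; exact hxN
            · exact hsubB y h
          · exact hsubC y h
  · -- at least three neighbours
    refine star _ ((G.neighborFinset z).filter fun y => ¬ G.Adj x y) hDst ?_ ?_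
    · intro u hu v hv huv
      rw [mem_filter] at hu hv
      have hux : u ≠ x := by rintro rfl; exact hv.2 huv
      have hvx : v ≠ x := by rintro rfl; exact hu.2 huv.symm
      have h3 : ({x, u, v} : Finset V) ⊆ (G.neighborFinset z).filter fun y => ¬ G.Adj x y := by
        intro y hy
        simp only [mem_insert, mem_singleton] at hy
        rcases hy with rfl | rfl | rfl
        · exact mem_filter.2 ⟨hxN, G.loopless.irrefl _⟩
        · exact mem_filter.2 hu
        · exact mem_filter.2 hv
      have h4 := card_le_card h3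
      have h5 : ({x, u, v} : Finset V).card = 3 := by
        rw [card_insert_of_notMem, card_insert_of_notMem, card_singleton]
        · simp [huv.ne]
        · simp [hux.symm, hvx.symm]
      have h6 := card_filter_add_card_filter_not (s := G.neighborFinset z) (fun y => G.Adj x y)
      omega
    · intro y
      rw [mem_filter, mem_filter]
      tauto

theorem three (hf : G.CliqueFree 4) (hG : ¬ HasBipartiteCut G) (hn : 11 ≤ Fintype.card V)
    {o u x y z : V} (ho : G.degree o = 5) (hu : G.Adj o u) (hx : G.Adj o x) (hy : G.Adj o y)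
    (hz : G.Adj o z) (hxy : x ≠ y) (hxz : x ≠ z) (hyz : y ≠ z) (h1 : G.Adj u x) (h2 : G.Adj u y)
    (h3 : G.Adj u z) : False := by
  have h := two hf hG hn ho hu
  have hsub : ({x, y, z} : Finset V) ⊆ (G.neighborFinset o).filter fun y => G.Adj u y := by
    intro w hw
    simp only [mem_insert, mem_singleton] at hw
    rcases hw with rfl | rfl | rfl
    · exact mem_filter.2 ⟨(SimpleGraph.mem_neighborFinset _ _ _).2 hx, h1⟩
    · exact mem_filter.2 ⟨(SimpleGraph.mem_neighborFinset _ _ _).2 hy, h2⟩
    · exact mem_filter.2 ⟨(SimpleGraph.mem_neighborFinset _ _ _).2 hz, h3⟩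
  have h4 := card_le_card hsub
  have h5 : ({x, y, z} : Finset V).card = 3 := by
    rw [card_insert_of_notMem, card_insert_of_notMem, card_singleton]
    · simp [hyz]
    · simp [hxy, hxz]
  omega

theorem noC4 (hf : G.CliqueFree 4) (hG : ¬ HasBipartiteCut G) (hn : 11 ≤ Fintype.card V)
    {o a b c d : V} (ho : G.degree o = 5) (ha : G.Adj o a) (hb : G.Adj o b) (hc : G.Adj o c)
    (hd : G.Adj o d) (hab : G.Adj a b) (hbc : G.Adj b c) (hcd : G.Adj c d) (hda : G.Adj d a)
    (hac : a ≠ c) (hbd : b ≠ d) : False := by
  have hN : (G.neighborFinset o).card = 5 := by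
    rw [SimpleGraph.card_neighborFinset_eq_degree, ho]
  have h4 : ({a, b, c, d} : Finset V).card = 4 := by
    rw [card_insert_of_notMem, card_insert_of_notMem, card_insert_of_notMem, card_singleton]
    · simp [hcd.ne]
    · simp [hbc.ne, hbd]
    · simp [hab.ne, hac, hda.ne']
  have hsub : ({a, b, c, d} : Finset V) ⊆ G.neighborFinset o := by
    intro w hw
    simp only [mem_insert, mem_singleton] at hw
    rw [SimpleGraph.mem_neighborFinset]
    rcases hw with rfl | rfl | rfl | rfl <;> assumption
  have h5 : (G.neighborFinset o \ {a, b, c, d}).card = 1 := by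
    rw [card_sdiff_of_subset hsub, hN, h4]
  obtain ⟨y, hy⟩ := card_eq_one.1 h5
  have hy1 : y ∈ G.neighborFinset o \ {a, b, c, d} := by rw [hy]; exact mem_singleton_self y
  rw [mem_sdiff, SimpleGraph.mem_neighborFinset] at hy1
  have hy2 := hy1.2
  simp only [mem_insert, mem_singleton, not_or] at hy2
  have h6 := two hf hG hn ho hy1.1
  obtain ⟨u, hu⟩ := card_pos.1 (by rw [h6]; norm_num :
    0 < ((G.neighborFinset o).filter fun w => G.Adj y w).card)
  rw [mem_filter] at hu
  have hu1 : u ∈ ({a, b, c, d} : Finset V) := by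
    by_contra hcon
    have : u ∈ G.neighborFinset o \ {a, b, c, d} := mem_sdiff.2 ⟨hu.1, hcon⟩
    rw [hy, mem_singleton] at this
    exact hu.2.ne this.symm
  simp only [mem_insert, mem_singleton] at hu1
  rcases hu1 with rfl | rfl | rfl | rfl
  · exact three hf hG hn ho ha hb hd hy1.1 hbd (Ne.symm hy2.2.1) (Ne.symm hy2.2.2.2) hab hda.symm
      hu.2.symm
  · exact three hf hG hn ho hb ha hc hy1.1 hac (Ne.symm hy2.1) (Ne.symm hy2.2.2.1) hab.symm hbc
      hu.2.symm
  · exact three hf hG hn ho hc hb hd hy1.1 hbd (Ne.symm hy2.2.1) (Ne.symm hy2.2.2.2) hbc.symm hcd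
      hu.2.symm
  · exact three hf hG hn ho hd ha hc hy1.1 hac (Ne.symm hy2.1) (Ne.symm hy2.2.2.1) hda hcd.symm
      hu.2.symm

/-- a common neighbour of two adjacent vertices of degree five whose neighbourhood contains a
4-cycle through them has degree at least seven -/
theorem seven (hf : G.CliqueFree 4) (hG : ¬ HasBipartiteCut G) (hn : 11 ≤ Fintype.card V)
    (hdeg : ∀ v, 5 ≤ G.degree v) {z z' a x y : V} (hz : G.degree z = 5) (hz' : G.degree z' = 5)
    (hzz : G.Adj z z') (hza : G.Adj z a) (hz'a : G.Adj z' a) (hzx : G.Adj z x) (hax : G.Adj a x)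
    (hz'y : G.Adj z' y) (hay : G.Adj a y) (hxy : G.Adj x y) (hxz' : x ≠ z') (hyz : y ≠ z) :
    7 ≤ G.degree a := by
  classical
  by_contra hcon
  have h5 : G.degree a ≠ 5 := fun ha5 =>
    noC4 hf hG hn ha5 hza.symm hz'a.symm hay hax hzz hz'y hxy.symm hzx.symm (Ne.symm hyz)
      (Ne.symm hxz')
  have h6 : G.degree a = 6 := by
    have := hdeg a
    omega
  have hN : (G.neighborFinset a).card = 6 := by
    rw [SimpleGraph.card_neighborFinset_eq_degree, h6]
  have haN : a ∉ G.neighborFinset a := by simp
  have star : ∀ B C : Finset V, IsStable G B → IsStable G C →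
      (∀ y, y ∈ G.neighborFinset a ↔ y ∈ B ∨ y ∈ C) → False := by
    intro B C hB hC h
    obtain ⟨w, hw⟩ := exists_outside (A := insert a (G.neighborFinset a)) (k := 7)
      (by rw [card_insert_of_notMem haN, hN]) (by omega)
    rw [mem_insert, h] at hw
    push Not at hw
    rw [h] at haN
    push Not at haN
    apply hG
    refine cut_of (A := {a}) hB hC ?_ ?_ ?_ (mem_singleton_self a) (w := w) ?_ hw.2.1 hw.2.2
    · intro y hy
      rw [mem_singleton] at hy
      rw [hy]; exact haN.1
    · intro y hy
      rw [mem_singleton] at hy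
      rw [hy]; exact haN.2
    · intro y hy u hyu
      rw [mem_singleton] at hy
      rw [hy] at hyu
      exact Or.inr ((h u).1 ((SimpleGraph.mem_neighborFinset _ _ _).2 hyu))
    · rw [mem_singleton]; exact hw.1
  have hzu : ∀ u, G.Adj a u → G.Adj z u → u = z' ∨ u = x := by
    intro u hau hzu
    by_contra hno
    push Not at hno
    exact three hf hG hn hz hza hzz hzx hzu (Ne.symm hxz') (Ne.symm hno.1) (Ne.symm hno.2)
      hz'a.symm hax hau
  have hz'u : ∀ u, G.Adj a u → G.Adj z' u → u = z ∨ u = y := by
    intro u hau hzu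
    by_contra hno
    push Not at hno
    exact three hf hG hn hz' hz'a hzz.symm hz'y hzu (Ne.symm hyz) (Ne.symm hno.1) (Ne.symm hno.2)
      hza.symm hay hau
  have hN0 : ∀ u, u ∈ ((G.neighborFinset a).erase z).erase z' ↔ u ≠ z' ∧ u ≠ z ∧ G.Adj a u := by
    intro u
    rw [mem_erase, mem_erase, SimpleGraph.mem_neighborFinset]
  have fin : ∀ B C : Finset V, IsStable G B → IsStable G C →
      (∀ u, u ∈ ((G.neighborFinset a).erase z).erase z' ↔ u ∈ B ∨ u ∈ C) →
      x ∈ B → y ∈ C → False := by
    intro B C hB hC hBC hxB hyC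
    have hyB : y ∉ B := fun h => hB x hxB y h hxy
    have hxC : x ∉ C := fun h => hC x h y hyC hxy
    have hB' : ∀ u ∈ B, u ≠ z' ∧ u ≠ z ∧ G.Adj a u := fun u hu =>
      (hN0 u).1 ((hBC u).2 (Or.inl hu))
    have hC' : ∀ u ∈ C, u ≠ z' ∧ u ≠ z ∧ G.Adj a u := fun u hu =>
      (hN0 u).1 ((hBC u).2 (Or.inr hu))
    have hzB : ∀ u ∈ B, ¬ G.Adj z' u := by
      intro u hu h
      rcases hz'u u (hB' u hu).2.2 h with h1 | h1
      · exact (hB' u hu).2.1 h1
      · rw [h1] at hu; exact hyB hu
    have hzC : ∀ u ∈ C, ¬ G.Adj z u := by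
      intro u hu h
      rcases hzu u (hC' u hu).2.2 h with h1 | h1
      · exact (hC' u hu).1 h1
      · rw [h1] at hu; exact hxC hu
    refine star (insert z' B) (insert z C) ?_ ?_ ?_
    · intro v hv w hw hvw
      rw [mem_insert] at hv hw
      rcases hv with rfl | hv <;> rcases hw with rfl | hw
      · exact hvw.ne rfl
      · exact hzB w hw hvw
      · exact hzB v hv hvw.symm
      · exact hB v hv w hw hvw
    · intro v hv w hw hvw
      rw [mem_insert] at hv hw
      rcases hv with rfl | hv <;> rcases hw with rfl | hw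
      · exact hvw.ne rfl
      · exact hzC w hw hvw
      · exact hzC v hv hvw.symm
      · exact hC v hv w hw hvw
    · intro u
      rw [SimpleGraph.mem_neighborFinset, mem_insert, mem_insert]
      constructor
      · intro hau
        by_cases h1 : u = z'
        · exact Or.inl (Or.inl h1)
        · by_cases h2 : u = z
          · exact Or.inr (Or.inl h2)
          · rcases (hBC u).1 ((hN0 u).2 ⟨h1, h2, hau⟩) with h | h
            · exact Or.inl (Or.inr h)
            · exact Or.inr (Or.inr h)
      · rintro ((h | h) | (h | h))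
        · rw [h]; exact hz'a.symm
        · exact (hB' u h).2.2
        · rw [h]; exact hza.symm
        · exact (hC' u h).2.2
  have hzN : z ∈ G.neighborFinset a := (SimpleGraph.mem_neighborFinset _ _ _).2 hza.symm
  have hz'N : z' ∈ (G.neighborFinset a).erase z :=
    mem_erase.2 ⟨hzz.ne', (SimpleGraph.mem_neighborFinset _ _ _).2 hz'a.symm⟩
  obtain ⟨B, C, hB, hC, hBC⟩ := two_sets (G := G) (N := ((G.neighborFinset a).erase z).erase z')
    (by rw [card_erase_of_mem hz'N, card_erase_of_mem hzN, hN]) (by
      intro u hu v hv w hw huv hvw huw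
      rw [hN0] at hu hv hw
      exact no4 hf hu.2.2 hv.2.2 hw.2.2 huv huw hvw)
  have hxz : x ≠ z := hzx.ne'
  have hyz' : y ≠ z' := hz'y.ne'
  rcases (hBC x).1 ((hN0 x).2 ⟨hxz', hxz, hax⟩) with hx | hx
  · rcases (hBC y).1 ((hN0 y).2 ⟨hyz', hyz, hay⟩) with hy | hy
    · exact hB x hx y hy hxy
    · exact fin B C hB hC hBC hx hy
  · rcases (hBC y).1 ((hN0 y).2 ⟨hyz', hyz, hay⟩) with hy | hy
    · exact fin C B hC hB (fun u => (hBC u).trans or_comm) hx hy
    · exact hC x hx y hy hxy

/-- three pairwise adjacent vertices `z, z', b` of degree five: the other common neighbour `a` of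
`z` and `z'` lies in triangles `z, a, x` and `z', a, y` with `x`, `y` adjacent -/
theorem pair (hf : G.CliqueFree 4) (hG : ¬ HasBipartiteCut G) (hn : 11 ≤ Fintype.card V)
    {z z' b : V} (hz : G.degree z = 5) (hz' : G.degree z' = 5)
    (hzz : G.Adj z z') (hb : G.degree b = 5) (hzb : G.Adj z b) (hz'b : G.Adj z' b) :
    ∃ a x y, G.Adj z a ∧ G.Adj z' a ∧ a ≠ b ∧ G.Adj z x ∧ G.Adj a x ∧ G.Adj z' y ∧ G.Adj a y ∧
      G.Adj x y ∧ x ≠ z' ∧ y ≠ z := by
  classical
  by_contra hcon
  obtain ⟨a, b', hab', hD'⟩ := card_eq_two.1 (two hf hG hn hz hzz)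
  have hbD' : b ∈ (G.neighborFinset z).filter fun y => G.Adj z' y :=
    mem_filter.2 ⟨(SimpleGraph.mem_neighborFinset _ _ _).2 hzb, hz'b⟩
  obtain ⟨a, hab, hD⟩ : ∃ a, a ≠ b ∧
      ((G.neighborFinset z).filter fun y => G.Adj z' y) = {a, b} := by
    rw [hD'] at hbD'
    simp only [mem_insert, mem_singleton] at hbD'
    rcases hbD' with h | h
    · refine ⟨b', ?_, ?_⟩
      · rw [h]; exact hab'.symm
      · rw [hD', h]; exact pair_comm a b'
    · refine ⟨a, ?_, ?_⟩
      · rw [h]; exact hab'
      · rw [hD', h]
  have haD : a ∈ (G.neighborFinset z).filter fun y => G.Adj z' y := by rw [hD]; simp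
  have hbD : b ∈ (G.neighborFinset z).filter fun y => G.Adj z' y := by rw [hD]; simp
  rw [mem_filter, SimpleGraph.mem_neighborFinset] at haD hbD
  have hcommon : ∀ x, G.Adj z x → G.Adj z' x → x = a ∨ x = b := by
    intro x h1 h2
    have : x ∈ (G.neighborFinset z).filter fun y => G.Adj z' y :=
      mem_filter.2 ⟨(SimpleGraph.mem_neighborFinset _ _ _).2 h1, h2⟩
    rw [hD] at this
    simpa using this
  have hnab : ¬ G.Adj a b := fun h => no4 hf hzz haD.1 hbD.1 haD.2 hbD.2 h
  -- a vertex of N(o), not adjacent to a and not adjacent to the partner, is adjacent to b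
  have toB : ∀ o o' x, G.degree o = 5 → G.Adj o o' → G.Adj o a → G.Adj o b → G.Adj o' a →
      G.Adj o x → ¬ G.Adj a x → ¬ G.Adj o' x → x ≠ a → x ≠ b → x ≠ o' → G.Adj x b := by
    intro o o' x ho hoo hoa hob ho'a hox hax ho'x hxa hxb hxo'
    have h2 := two hf hG hn ho hox
    by_contra hxb'
    have hsub : ((G.neighborFinset o).filter fun y => G.Adj x y) ⊆
        (G.neighborFinset o) \ {x, a, b, o'} := by
      intro y hy
      rw [mem_filter] at hy
      rw [mem_sdiff]
      refine ⟨hy.1, ?_⟩
      simp only [mem_insert, mem_singleton, not_or]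
      refine ⟨?_, ?_, ?_, ?_⟩
      · rintro rfl; exact hy.2.ne rfl
      · rintro rfl; exact hax hy.2.symm
      · rintro rfl; exact hxb' hy.2
      · rintro rfl; exact ho'x hy.2.symm
    have h3 := card_le_card hsub
    have h4 : ({x, a, b, o'} : Finset V).card = 4 := by
      rw [card_insert_of_notMem, card_insert_of_notMem, card_insert_of_notMem, card_singleton]
      · rw [mem_singleton]
        rintro rfl
        exact hnab ho'a.symm
      · simp only [mem_insert, mem_singleton, not_or]
        exact ⟨hab, ho'a.ne'⟩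
      · simp only [mem_insert, mem_singleton, not_or]
        exact ⟨hxa, hxb, hxo'⟩
    have h6 : ({x, a, b, o'} : Finset V) ⊆ G.neighborFinset o := by
      intro w hw
      simp only [mem_insert, mem_singleton] at hw
      rw [SimpleGraph.mem_neighborFinset]
      rcases hw with rfl | rfl | rfl | rfl <;> assumption
    rw [card_sdiff_of_subset h6, SimpleGraph.card_neighborFinset_eq_degree, ho, h4, h2] at h3
    omega
  -- two adjacent vertices of N(o) outside {o', a, b} are not both non-adjacent to a
  have inB : ∀ o o' x y, G.degree o = 5 → G.Adj o o' → G.Adj o a → G.Adj o b → G.Adj o' a →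
      G.Adj o x → G.Adj o y → x ≠ y → x ≠ a → y ≠ a → x ≠ b → y ≠ b → x ≠ o' → y ≠ o' →
      ¬ G.Adj a x → ¬ G.Adj a y → False := by
    intro o o' x y ho hoo hoa hob ho'a hox hoy hxy hxa hya hxb hyb hxo hyo hax hay
    have h2 := two hf hG hn ho hoa
    have hsub : ((G.neighborFinset o).filter fun y => G.Adj a y) ⊆
        (G.neighborFinset o) \ {x, y, a, b} := by
      intro w hw
      rw [mem_filter] at hw
      rw [mem_sdiff]
      refine ⟨hw.1, ?_⟩
      simp only [mem_insert, mem_singleton, not_or]
      refine ⟨?_, ?_, ?_, ?_⟩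
      · rintro rfl; exact hax hw.2
      · rintro rfl; exact hay hw.2
      · rintro rfl; exact hw.2.ne rfl
      · rintro rfl; exact hnab hw.2
    have h3 := card_le_card hsub
    have h4 : ({x, y, a, b} : Finset V).card = 4 := by
      rw [card_insert_of_notMem, card_insert_of_notMem, card_insert_of_notMem, card_singleton]
      · simp [hab]
      · simp only [mem_insert, mem_singleton, not_or]
        exact ⟨hya, hyb⟩
      · simp only [mem_insert, mem_singleton, not_or]
        exact ⟨hxy, hxa, hxb⟩
    have h6 : ({x, y, a, b} : Finset V) ⊆ G.neighborFinset o := by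
      intro w hw
      simp only [mem_insert, mem_singleton] at hw
      rw [SimpleGraph.mem_neighborFinset]
      rcases hw with rfl | rfl | rfl | rfl <;> assumption
    rw [card_sdiff_of_subset h6, SimpleGraph.card_neighborFinset_eq_degree, ho, h4, h2] at h3
    omega
  set M : Finset V := (G.neighborFinset z ∪ G.neighborFinset z') \ {z, z'} with hM
  have hMmem : ∀ x, x ∈ M ↔ (G.Adj z x ∨ G.Adj z' x) ∧ x ≠ z ∧ x ≠ z' := by
    intro x
    rw [hM, mem_sdiff, mem_union, SimpleGraph.mem_neighborFinset, SimpleGraph.mem_neighborFinset]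
    simp
  obtain ⟨w, hw⟩ := exists_outside (A := G.neighborFinset z ∪ G.neighborFinset z') (k := 10)
    (by
      refine (card_union_le _ _).trans ?_
      rw [SimpleGraph.card_neighborFinset_eq_degree, SimpleGraph.card_neighborFinset_eq_degree,
        hz, hz']) (by omega)
  rw [mem_union, SimpleGraph.mem_neighborFinset, SimpleGraph.mem_neighborFinset] at hw
  push Not at hw
  apply hG
  refine cut_of (A := {z, z'}) (B := M.filter fun x => ¬ G.Adj a x ∧ x ≠ b)
    (C := M.filter fun x => G.Adj a x ∨ x = b) ?_ ?_ ?_ ?_ ?_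
    (a := z) (w := w) (by simp) ?_ ?_ ?_
  · -- B is stable
    have main : ∀ o o' x y, G.degree o = 5 → G.degree o' = 5 → G.Adj o o' → G.Adj o a →
        G.Adj o b → G.Adj o' a → G.Adj o' b → x ≠ o → y ≠ o → x ≠ o' → y ≠ o' →
        (∀ w, G.Adj o w → G.Adj o' w → w = a ∨ w = b) →
        ¬ G.Adj a x → x ≠ b → ¬ G.Adj a y → y ≠ b → x ≠ a → y ≠ a →
        G.Adj o x → G.Adj x y → (G.Adj o y ∨ G.Adj o' y) → False := by
      intro o o' x y ho ho' hoo hoa hob ho'a ho'b hxo hyo hxo' hyo' hcm hax hxb hay hyb hxa hya
        hox hxy hy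
      by_cases hoy : G.Adj o y
      · exact inB o o' x y ho hoo hoa hob ho'a hox hoy hxy.ne hxa hya hxb hyb hxo' hyo' hax hay
      · have ho'y := hy.resolve_left hoy
        by_cases ho'x : G.Adj o' x
        · rcases hcm x hox ho'x with h | h
          · exact hxa h
          · exact hxb h
        · have h1 := toB o o' x ho hoo hoa hob ho'a hox hax ho'x hxa hxb hxo'
          have h2 := toB o' o y ho' hoo.symm ho'a ho'b hoa ho'y hay hoy hya hyb hyo
          exact noC4 hf hG hn hb hob.symm ho'b.symm h2.symm
            h1.symm hoo ho'y hxy.symm hox.symm hyo.symm hxo'.symm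
    intro x hx y hy hxy
    rw [mem_filter, hMmem] at hx hy
    obtain ⟨⟨hx1, hxz, hxz'⟩, hax, hxb⟩ := hx
    obtain ⟨⟨hy1, hyz, hyz'⟩, hay, hyb⟩ := hy
    have hxa : x ≠ a := by rintro rfl; exact hay hxy
    have hya : y ≠ a := by rintro rfl; exact hax hxy.symm
    rcases hx1 with hx1 | hx1
    · exact main z z' x y hz hz' hzz haD.1 hbD.1 haD.2 hbD.2 hxz hyz hxz' hyz' hcommon hax hxb hay
        hyb hxa hya hx1 hxy hy1
    · exact main z' z x y hz' hz hzz.symm haD.2 hbD.2 haD.1 hbD.1 hxz' hyz' hxz hyz
        (fun w h1 h2 => hcommon w h2 h1) hax hxb hay hyb hxa hya hx1 hxy hy1.symm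
  · -- C is stable
    have withb : ∀ y, (G.Adj z y ∨ G.Adj z' y) → y ≠ z → y ≠ z' → G.Adj a y → G.Adj b y →
        False := by
      intro y hy hyz hyz' hay hby
      rcases hy with hy | hy
      · exact noC4 hf hG hn hz hzz haD.1 hy hbD.1 haD.2 hay hby.symm hbD.2.symm hyz'.symm hab
      · exact noC4 hf hG hn hz' hzz.symm haD.2 hy hbD.2 haD.1 hay hby.symm hbD.1.symm hyz.symm hab
    intro x hx y hy hxy
    rw [mem_filter, hMmem] at hx hy
    obtain ⟨⟨hx1, hxz, hxz'⟩, hx2⟩ := hx
    obtain ⟨⟨hy1, hyz, hyz'⟩, hy2⟩ := hy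
    by_cases hxb : x = b
    · have hay : G.Adj a y := hy2.resolve_right (by rintro rfl; exact hxy.ne hxb)
      rw [hxb] at hxy
      exact withb y hy1 hyz hyz' hay hxy
    · have hax := hx2.resolve_right hxb
      by_cases hyb : y = b
      · rw [hyb] at hxy
        exact withb x hx1 hxz hxz' hax hxy.symm
      · have hay := hy2.resolve_right hyb
        rcases hx1 with hx1 | hx1 <;> rcases hy1 with hy1 | hy1
        · exact no4 hf haD.1 hx1 hy1 hax hay hxy
        · exact hcon ⟨a, x, y, haD.1, haD.2, hab, hx1, hax, hy1, hay, hxy, hxz', hyz⟩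
        · exact hcon ⟨a, y, x, haD.1, haD.2, hab, hy1, hay, hx1, hax, hxy.symm, hyz', hxz⟩
        · exact no4 hf haD.2 hx1 hy1 hax hay hxy
  · intro x hx hx'
    rw [mem_filter, hMmem] at hx'
    simp only [mem_insert, mem_singleton] at hx
    rcases hx with h | h
    · exact hx'.1.2.1 h
    · exact hx'.1.2.2 h
  · intro x hx hx'
    rw [mem_filter, hMmem] at hx'
    simp only [mem_insert, mem_singleton] at hx
    rcases hx with h | h
    · exact hx'.1.2.1 h
    · exact hx'.1.2.2 h
  · intro x hx y hxy
    simp only [mem_insert, mem_singleton] at hx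
    by_cases hy : y = z ∨ y = z'
    · left
      simpa using hy
    · right
      push Not at hy
      have hyM : y ∈ M := by
        rw [hMmem]
        refine ⟨?_, hy.1, hy.2⟩
        rcases hx with h | h
        · left; rw [← h]; exact hxy
        · right; rw [← h]; exact hxy
      rw [mem_filter, mem_filter]
      tauto
  · simp only [mem_insert, mem_singleton, not_or]
    refine ⟨?_, ?_⟩
    · rintro rfl; exact hw.2 hzz.symm
    · rintro rfl; exact hw.1 hzz
  · intro h
    rw [mem_filter, hMmem] at h
    exact h.1.1.elim hw.1 hw.2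
  · intro h
    rw [mem_filter, hMmem] at h
    exact h.1.1.elim hw.1 hw.2


/-- the neighbours of `v` in `S` -/
def nb (G : SimpleGraph V) [DecidableRel G.Adj] (S : Finset V) (v : V) : Finset V :=
  S.filter fun t => G.Adj v t

/-- `t` can pay extra charge -/
abbrev Rich (G : SimpleGraph V) [DecidableRel G.Adj] (S : Finset V) (t : V) : Prop :=
  2 * (priv G S t).card + 22 ≤ 4 * G.degree t

/-- the share of `s` in the charge of `v` -/
def phi (G : SimpleGraph V) [DecidableRel G.Adj] (S : Finset V) (v s : V) : ℤ :=
  if (nb G S v).card = 1 then 6 else if 3 ≤ (nb G S v).card then 2 else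
    if ((nb G S v).filter fun t => Rich G S t).card = 1 then
      (if Rich G S s then 4 else 2) else 3

theorem phi_sum {S : Finset V} {v : V} (h : (nb G S v).Nonempty) :
    6 ≤ ∑ s ∈ nb G S v, phi G S v s := by
  have h0 := card_pos.2 h
  unfold phi
  by_cases h1 : (nb G S v).card = 1
  · simp only [h1, if_true]
    rw [sum_const, h1]; norm_num
  · by_cases h3 : 3 ≤ (nb G S v).card
    · simp only [h1, h3, if_true, if_false]
      rw [sum_const, nsmul_eq_mul]
      have : (3 : ℤ) ≤ (nb G S v).card := by exact_mod_cast h3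
      linarith
    · have h2 : (nb G S v).card = 2 := by omega
      by_cases h4 : ((nb G S v).filter fun t => Rich G S t).card = 1
      · simp only [h1, h3, h4, if_true, if_false]
        rw [sum_ite, sum_const, sum_const, h4]
        have h5 := card_filter_add_card_filter_not (s := nb G S v) (fun t => Rich G S t)
        have h6 : ((nb G S v).filter fun t => ¬ Rich G S t).card = 1 := by omega
        rw [h6]; norm_num
      · simp only [h1, h3, h4, if_false]
        rw [sum_const, h2]; norm_num

theorem load_sum {S : Finset V} (hS : IsStable G S)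
    (hdom : ∀ v, v ∉ S → (nb G S v).Nonempty) :
    6 * ((Fintype.card V : ℤ) - S.card) ≤
      ∑ s ∈ S, ∑ v ∈ G.neighborFinset s, phi G S v s := by
  have h1 : ∑ s ∈ S, ∑ v ∈ G.neighborFinset s, phi G S v s =
      ∑ v ∈ Sᶜ, ∑ s ∈ nb G S v, phi G S v s := by
    apply sum_comm'
    intro s v
    rw [SimpleGraph.mem_neighborFinset, nb, mem_filter, mem_compl]
    constructor
    · rintro ⟨h1, h2⟩
      exact ⟨⟨h1, h2.symm⟩, fun hv => hS s h1 v hv h2⟩
    · rintro ⟨⟨h1, h2⟩, -⟩
      exact ⟨h1, h2.symm⟩
  rw [h1]
  have h2 : ∑ _v ∈ Sᶜ, (6 : ℤ) ≤ ∑ v ∈ Sᶜ, ∑ s ∈ nb G S v, phi G S v s :=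
    sum_le_sum fun v hv => phi_sum (hdom v (mem_compl.1 hv))
  rw [sum_const, nsmul_eq_mul, card_compl, Nat.cast_sub (card_le_univ S)] at h2
  linarith

theorem priv_of_card {S : Finset V} (hS : IsStable G S) {s v : V} (hs : s ∈ S) (hv : G.Adj s v)
    (h : (nb G S v).card = 1) : v ∈ priv G S s := by
  obtain ⟨t, ht⟩ := card_eq_one.1 h
  have h1 : s ∈ nb G S v := mem_filter.2 ⟨hs, hv.symm⟩
  rw [ht, mem_singleton] at h1
  rw [mem_priv]
  refine ⟨fun hvS => hS s hs v hvS hv, ?_⟩
  rw [h1]; exact ht

theorem phi_le {S : Finset V} (hS : IsStable G S) {s v : V} (hs : s ∈ S) (hv : G.Adj s v) :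
    phi G S v s ≤ 4 + (if v ∈ priv G S s then 2 else 0) := by
  by_cases h1 : (nb G S v).card = 1
  · rw [if_pos (priv_of_card hS hs hv h1)]
    unfold phi
    rw [if_pos h1]
    norm_num
  · have h2 : phi G S v s ≤ 4 := by
      unfold phi
      rw [if_neg h1]
      split_ifs <;> norm_num
    split_ifs <;> linarith

theorem phi_poor {S : Finset V} (hS : IsStable G S) {s v : V} (hs : s ∈ S) (hv : G.Adj s v)
    (hl : ¬ Rich G S s) : phi G S v s ≤ 3 + (if v ∈ priv G S s then 3 else 0) := by
  by_cases h1 : (nb G S v).card = 1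
  · rw [if_pos (priv_of_card hS hs hv h1)]
    unfold phi
    rw [if_pos h1]
    norm_num
  · have h2 : phi G S v s ≤ 3 := by
      unfold phi
      rw [if_neg h1, if_neg hl]
      split_ifs <;> norm_num
    split_ifs <;> linarith

theorem load_rich {S : Finset V} (hS : IsStable G S) {s : V} (hs : s ∈ S)
    (hP : Rich G S s) :
    6 + ∑ v ∈ G.neighborFinset s, phi G S v s ≤ 8 * ((G.degree s : ℤ) - 2) := by
  have h1 : ∑ v ∈ G.neighborFinset s, phi G S v s ≤
      ∑ v ∈ G.neighborFinset s, (4 + (if v ∈ priv G S s then (2 : ℤ) else 0)) :=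
    sum_le_sum fun v hv => phi_le hS hs ((SimpleGraph.mem_neighborFinset _ _ _).1 hv)
  rw [sum_add_distrib, sum_const, sum_ite_mem, sum_const,
    SimpleGraph.card_neighborFinset_eq_degree, nsmul_eq_mul, nsmul_eq_mul] at h1
  have h2 : ((G.neighborFinset s ∩ priv G S s).card : ℤ) ≤ (priv G S s).card := by
    exact_mod_cast card_le_card inter_subset_right
  have h3 : 2 * ((priv G S s).card : ℤ) + 22 ≤ 4 * G.degree s := by exact_mod_cast hP
  linarith

theorem load_poor {S : Finset V} (hS : IsStable G S) {s : V} (hs : s ∈ S)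
    (hr : ¬ Rich G S s) (hP : 3 * (priv G S s).card + 22 ≤ 5 * G.degree s) :
    6 + ∑ v ∈ G.neighborFinset s, phi G S v s ≤ 8 * ((G.degree s : ℤ) - 2) := by
  have h1 : ∑ v ∈ G.neighborFinset s, phi G S v s ≤
      ∑ v ∈ G.neighborFinset s, (3 + (if v ∈ priv G S s then (3 : ℤ) else 0)) :=
    sum_le_sum fun v hv => phi_poor hS hs ((SimpleGraph.mem_neighborFinset _ _ _).1 hv) hr
  rw [sum_add_distrib, sum_const, sum_ite_mem, sum_const,
    SimpleGraph.card_neighborFinset_eq_degree, nsmul_eq_mul, nsmul_eq_mul] at h1
  have h2 : ((G.neighborFinset s ∩ priv G S s).card : ℤ) ≤ (priv G S s).card := by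
    exact_mod_cast card_le_card inter_subset_right
  have h3 : 3 * ((priv G S s).card : ℤ) + 22 ≤ 5 * G.degree s := by exact_mod_cast hP
  linarith

theorem priv_le2 (hf : G.CliqueFree 4) {S : Finset V} (hS : IsStable G S)
    (hmax : ∀ T, IsStable G T → wt G T ≤ wt G S) (hdeg : ∀ v, 5 ≤ G.degree v) {s : V}
    (hs : s ∈ S) (h7 : G.degree s ≤ 7) : (priv G S s).card ≤ 2 := by
  by_contra hcon
  push Not at hcon
  obtain ⟨a, ha, b, hb, c, hc, hab, hac, hbc⟩ := two_lt_card.1 hcon
  exact no4 hf (priv_adj ha).symm (priv_adj hb).symm (priv_adj hc).symm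
    (heaviest_clique hS hmax hdeg hs h7 ha hb hab) (heaviest_clique hS hmax hdeg hs h7 ha hc hac)
    (heaviest_clique hS hmax hdeg hs h7 hb hc hbc)

theorem priv_le5 (hf : G.CliqueFree 4) {S : Finset V} (hS : IsStable G S)
    (hmax : ∀ T, IsStable G T → wt G T ≤ wt G S) (hdeg : ∀ v, 5 ≤ G.degree v) {s : V}
    (hs : s ∈ S) (h10 : G.degree s ≤ 10) : (priv G S s).card ≤ 5 := by
  have hdegZ : ∀ v, (5 : ℤ) ≤ G.degree v := fun v => by exact_mod_cast hdeg v
  have halpha : ∀ a b c, a ∈ priv G S s → b ∈ priv G S s → c ∈ priv G S s → a ≠ b → a ≠ c →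
      b ≠ c → ¬ G.Adj a b → ¬ G.Adj a c → ¬ G.Adj b c → False := by
    intro a b c ha hb hc hab hac hbc nab nac nbc
    have hT : IsStable G {a, b, c} := by
      intro x hx y hy hxy
      simp only [mem_insert, mem_singleton] at hx hy
      rcases hx with rfl | rfl | rfl <;> rcases hy with rfl | rfl | rfl
      · exact hxy.ne rfl
      · exact nab hxy
      · exact nac hxy
      · exact nab hxy.symm
      · exact hxy.ne rfl
      · exact nbc hxy
      · exact nac hxy.symm
      · exact nbc hxy.symm
      · exact hxy.ne rfl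
    have hpr : ∀ x ∈ ({a, b, c} : Finset V), x ∈ priv G S s := by
      intro x hx
      simp only [mem_insert, mem_singleton] at hx
      rcases hx with rfl | rfl | rfl <;> assumption
    have h1 := exch (R := {s}) hS hmax hT
      (disjoint_left.2 fun x hx => (mem_priv.1 (hpr x hx)).1) (singleton_subset_iff.2 hs)
      (fun x hx y hy hxy => mem_singleton.2 (priv_only (hpr x hx) hy hxy))
    unfold wt at h1
    rw [sum_singleton, sum_insert (by simp [hab, hac]), sum_insert (by simp [hbc]),
      sum_singleton] at h1
    have h2 : (G.degree s : ℤ) ≤ 10 := by exact_mod_cast h10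
    have := hdegZ a
    have := hdegZ b
    have := hdegZ c
    linarith
  by_contra hcon
  push Not at hcon
  obtain ⟨p, hp⟩ := card_pos.1 (by omega : 0 < (priv G S s).card)
  have h1 := card_filter_add_card_filter_not (s := (priv G S s).erase p) (fun x => G.Adj p x)
  rw [card_erase_of_mem hp] at h1
  rcases Nat.lt_or_ge 2 (((priv G S s).erase p).filter fun x => G.Adj p x).card with h2 | h2
  · obtain ⟨a, ha, b, hb, c, hc, hab, hac, hbc⟩ := two_lt_card.1 h2
    rw [mem_filter, mem_erase] at ha hb hc
    refine halpha a b c ha.1.2 hb.1.2 hc.1.2 hab hac hbc ?_ ?_ ?_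
    · exact fun h => no4 hf (priv_adj hp).symm (priv_adj ha.1.2).symm (priv_adj hb.1.2).symm
        ha.2 hb.2 h
    · exact fun h => no4 hf (priv_adj hp).symm (priv_adj ha.1.2).symm (priv_adj hc.1.2).symm
        ha.2 hc.2 h
    · exact fun h => no4 hf (priv_adj hp).symm (priv_adj hb.1.2).symm (priv_adj hc.1.2).symm
        hb.2 hc.2 h
  · obtain ⟨a, ha, b, hb, c, hc, hab, hac, hbc⟩ := two_lt_card.1
      (by omega : 2 < (((priv G S s).erase p).filter fun x => ¬ G.Adj p x).card)
    rw [mem_filter, mem_erase] at ha hb hc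
    have key : ∀ x y, (x ≠ p ∧ x ∈ priv G S s) ∧ ¬ G.Adj p x →
        (y ≠ p ∧ y ∈ priv G S s) ∧ ¬ G.Adj p y → x ≠ y → G.Adj x y := by
      intro x y hx hy hxy
      by_contra hno
      exact halpha p x y hp hx.1.2 hy.1.2 (Ne.symm hx.1.1) (Ne.symm hy.1.1) hxy hx.2 hy.2 hno
    exact no4 hf (priv_adj ha.1.2).symm (priv_adj hb.1.2).symm (priv_adj hc.1.2).symm
      (key a b ha hb hab) (key a c ha hc hac) (key b c hb hc hbc)

theorem rich_seven (hf : G.CliqueFree 4) {S : Finset V} (hS : IsStable G S)
    (hmax : ∀ T, IsStable G T → wt G T ≤ wt G S) (hdeg : ∀ v, 5 ≤ G.degree v) {t : V}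
    (ht : t ∈ S) (h7 : 7 ≤ G.degree t) : Rich G S t := by
  unfold Rich
  have hle := priv_card_le S t (G := G)
  by_cases h8 : G.degree t ≤ 7
  · have := priv_le2 hf hS hmax hdeg ht h8
    omega
  · by_cases h10 : G.degree t ≤ 10
    · have := priv_le5 hf hS hmax hdeg ht h10
      omega
    · omega

theorem phi_a {S : Finset V} (hS : IsStable G S)
    (hmax : ∀ T, IsStable G T → wt G T ≤ wt G S) {s q a : V}
    (hs : s ∈ S) (h5 : G.degree s = 5) (hqP : q ∈ priv G S s)
    (hq5 : G.degree q = 5) (hsa : G.Adj s a) (hnaq : ¬ G.Adj a q) (haP : a ∉ priv G S s)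
    (hr : ∀ t, t ∈ S → t ≠ s → nb G S a = {s, t} → G.degree a ≤ G.degree t → Rich G S t) :
    phi G S a s ≤ 2 := by
  have haS : a ∉ S := fun h => hS s hs a h hsa
  have haq : a ≠ q := by rintro rfl; exact haP hqP
  have hk1 : (nb G S a).card ≠ 1 := fun h => haP (priv_of_card hS hs hsa h)
  have hsnb : s ∈ nb G S a := mem_filter.2 ⟨hs, hsa.symm⟩
  have hsr : ¬ Rich G S s := by
    unfold Rich
    omega
  unfold phi
  rw [if_neg hk1]
  by_cases hk3 : 3 ≤ (nb G S a).card
  · rw [if_pos hk3]
  · rw [if_neg hk3]
    have hk2 : (nb G S a).card = 2 := by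
      have := card_pos.2 ⟨s, hsnb⟩
      omega
    have h1 : ((nb G S a).erase s).card = 1 := by rw [card_erase_of_mem hsnb, hk2]
    obtain ⟨t, ht⟩ := card_eq_one.1 h1
    have htn : t ∈ (nb G S a).erase s := by rw [ht]; exact mem_singleton_self t
    rw [mem_erase] at htn
    have htS : t ∈ S := (mem_filter.1 htn.2).1
    have hnb : nb G S a = {s, t} := by rw [← insert_erase hsnb, ht]
    have hT : IsStable G {a, q} := by
      intro x hx y hy hxy
      simp only [mem_insert, mem_singleton] at hx hy
      rcases hx with rfl | rfl <;> rcases hy with rfl | rfl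
      · exact hxy.ne rfl
      · exact hnaq hxy
      · exact hnaq hxy.symm
      · exact hxy.ne rfl
    have h2 := exch (T := {a, q}) (R := {s, t}) hS hmax hT
      (by
        rw [disjoint_left]
        intro x hx
        simp only [mem_insert, mem_singleton] at hx
        rcases hx with rfl | rfl
        · exact haS
        · exact (mem_priv.1 hqP).1)
      (by
        intro x hx
        simp only [mem_insert, mem_singleton] at hx
        rcases hx with rfl | rfl
        · exact hs
        · exact htS)
      (by
        intro x hx y hy hxy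
        simp only [mem_insert, mem_singleton] at hx
        rcases hx with rfl | rfl
        · rw [← hnb]; exact mem_filter.2 ⟨hy, hxy⟩
        · rw [priv_only hqP hy hxy]; simp)
    unfold wt at h2
    rw [sum_insert (by simp [haq]), sum_singleton,
      sum_insert (by rw [mem_singleton]; exact Ne.symm htn.1), sum_singleton, h5, hq5] at h2
    have h4 : G.degree a ≤ G.degree t := by
      have : (G.degree a : ℤ) ≤ G.degree t := by linarith
      exact_mod_cast this
    have hrt := hr t htS htn.1 hnb h4
    have h6 : ((nb G S a).filter fun t => Rich G S t) = {t} := by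
      rw [hnb]
      ext x
      simp only [mem_filter, mem_insert, mem_singleton]
      constructor
      · rintro ⟨h | h, hx⟩
        · rw [h] at hx; exact absurd hx hsr
        · exact h
      · intro h
        rw [h]
        exact ⟨Or.inr rfl, hrt⟩
    rw [h6, card_singleton, if_pos rfl, if_neg hsr]

theorem load_light (hf : G.CliqueFree 4) (hG : ¬ HasBipartiteCut G) (hn : 11 ≤ Fintype.card V)
    {S : Finset V} (hS : IsStable G S)
    (hmax : ∀ T, IsStable G T → wt G T ≤ wt G S) (hdeg : ∀ v, 5 ≤ G.degree v) {s : V}
    (hs : s ∈ S) (h5 : G.degree s = 5) :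
    6 + ∑ v ∈ G.neighborFinset s, phi G S v s ≤ 8 * ((G.degree s : ℤ) - 2) := by
  have hl : ¬ Rich G S s := by
    unfold Rich
    omega
  have hle := priv_le2 hf hS hmax hdeg hs (by omega)
  rcases Nat.lt_or_ge 1 (priv G S s).card with h2 | h2
  · obtain ⟨p, q, hpq, hP⟩ := card_eq_two.1 (by omega : (priv G S s).card = 2)
    have hpP : p ∈ priv G S s := by rw [hP]; simp
    have hqP : q ∈ priv G S s := by rw [hP]; simp
    have hadj := heaviest_clique hS hmax hdeg hs (by omega) hpP hqP hpq
    have hdp : ∀ x, x ∈ priv G S s → G.degree x = 5 := by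
      intro x hx
      have h3 := exch (T := {x}) (R := {s}) hS hmax
        (by
          intro u hu v hv huv
          rw [mem_singleton] at hu hv
          rw [hu, hv] at huv
          exact huv.ne rfl)
        (by
          rw [disjoint_left]
          intro u hu
          rw [mem_singleton] at hu
          rw [hu]; exact (mem_priv.1 hx).1)
        (singleton_subset_iff.2 hs)
        (by
          intro u hu v hv huv
          rw [mem_singleton] at hu
          rw [hu] at huv
          rw [mem_singleton]
          exact priv_only hx hv huv)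
      unfold wt at h3
      rw [sum_singleton, sum_singleton, h5] at h3
      have h4 : (G.degree x : ℤ) ≤ 5 := by push_cast at h3; linarith
      have h6 : G.degree x ≤ 5 := by exact_mod_cast h4
      exact le_antisymm h6 (hdeg x)
    have hsp := (priv_adj hpP).symm
    have hsq := (priv_adj hqP).symm
    obtain ⟨a, c, e, hsa, hpa, haq, hsc, hac, hpe, hae, hce, hcp, hes⟩ :=
      pair hf hG hn h5 (hdp p hpP) hsp (hdp q hqP) hsq hadj
    obtain ⟨b, c', f, hsb, hqb, hbp, hsc', hbc', hqf, hbf, hcf, hcq', hfs⟩ :=
      pair hf hG hn h5 (hdp q hqP) hsq (hdp p hpP) hsp hadj.symm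
    -- non-adjacencies
    have hnaq : ¬ G.Adj a q := fun h => no4 hf hsp hsq hsa hadj hpa h.symm
    have hnbp : ¬ G.Adj b p := fun h => no4 hf hsp hsq hsb hadj h.symm hqb
    have hab : a ≠ b := by rintro rfl; exact hnaq hqb.symm
    have hnpc : ¬ G.Adj c p := fun h => no4 hf hsp hsa hsc hpa h.symm hac
    have hnqc' : ¬ G.Adj c' q := fun h => no4 hf hsq hsb hsc' hqb h.symm hbc'
    have hcq : c ≠ q := by rintro rfl; exact hnpc hadj.symm
    have hc'p : c' ≠ p := by rintro rfl; exact hnqc' hadj
    have hca : c ≠ a := hac.ne'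
    have hc'b : c' ≠ b := hbc'.ne'
    have hnab : ¬ G.Adj a b := fun h =>
      noC4 hf hG hn h5 hsp hsq hsb hsa hadj hqb h.symm hpa.symm (by exact Ne.symm hbp)
        (by exact Ne.symm haq)
    have hcb : c ≠ b := by rintro rfl; exact hnab hac
    have hc'a : c' ≠ a := by rintro rfl; exact hnab hbc'.symm
    have hcc : c = c' := by
      by_contra hne
      have h6 : ({p, q, a, b, c, c'} : Finset V).card = 6 := by
        rw [card_insert_of_notMem, card_insert_of_notMem, card_insert_of_notMem,
          card_insert_of_notMem, card_insert_of_notMem, card_singleton]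
        · simpa using hne
        · simp only [mem_insert, mem_singleton, not_or]
          exact ⟨Ne.symm hcb, Ne.symm hc'b⟩
        · simp only [mem_insert, mem_singleton, not_or]
          exact ⟨hab, Ne.symm hca, Ne.symm hc'a⟩
        · simp only [mem_insert, mem_singleton, not_or]
          exact ⟨Ne.symm haq, hqb.ne, Ne.symm hcq, Ne.symm hcq'⟩
        · simp only [mem_insert, mem_singleton, not_or]
          exact ⟨hpq, hpa.ne, Ne.symm hbp, Ne.symm hcp, Ne.symm hc'p⟩
      have h7 : ({p, q, a, b, c, c'} : Finset V) ⊆ G.neighborFinset s := by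
        intro w hw
        simp only [mem_insert, mem_singleton] at hw
        rw [SimpleGraph.mem_neighborFinset]
        rcases hw with rfl | rfl | rfl | rfl | rfl | rfl <;> assumption
      have h8 := card_le_card h7
      rw [h6, SimpleGraph.card_neighborFinset_eq_degree, h5] at h8
      omega
    subst hcc
    have haP : a ∉ priv G S s := by
      rw [hP]
      simp only [mem_insert, mem_singleton, not_or]
      exact ⟨hpa.ne', haq⟩
    have hbP : b ∉ priv G S s := by
      rw [hP]
      simp only [mem_insert, mem_singleton, not_or]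
      exact ⟨hbp, hqb.ne'⟩
    have hcP : c ∉ priv G S s := by
      rw [hP]
      simp only [mem_insert, mem_singleton, not_or]
      exact ⟨hcp, hcq⟩
    have hqe : e ≠ q := by rintro rfl; exact hnaq hae
    have hpf : f ≠ p := by rintro rfl; exact hnbp hbf
    -- degrees
    have hge : ∀ x, G.degree x ≠ 5 → 6 ≤ G.degree x := fun x hx => by
      have := hdeg x
      omega
    have ha7 : 7 ≤ G.degree a := seven hf hG hn hdeg h5 (hdp p hpP) hsp hsa hpa hsc hac hpe hae
      hce hcp hes
    have hb7 : 7 ≤ G.degree b := seven hf hG hn hdeg h5 (hdp q hqP) hsq hsb hqb hsc hbc' hqf hbf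
      hcf hcq' hfs
    obtain ⟨d, x, y, hpd, hqd, hds, hpx, hdx, hqy, hdy, hxy, hxq, hyp⟩ :=
      pair hf hG hn (hdp p hpP) (hdp q hqP) hadj h5 hsp.symm hsq.symm
    have hd7 : 7 ≤ G.degree d := seven hf hG hn hdeg (hdp p hpP) (hdp q hqP) hadj hpd hqd hpx hdx
      hqy hdy hxy hxq hyp
    have heS : e ∉ S := fun h => hes (priv_only hpP h hpe)
    have hfS : f ∉ S := fun h => hfs (priv_only hqP h hqf)
    have hnse : ¬ G.Adj s e := by
      intro h
      exact no4 hf hsp hsa h hpa hpe hae
    have hnsf : ¬ G.Adj s f := by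
      intro h
      exact no4 hf hsq hsb h hqb hqf hbf
    have hef : e ≠ f := by
      rintro rfl
      -- c, s, ... : e adjacent to p, q, a, b, c
      exact noC4 hf hG hn (hdp p hpP) hsp.symm hpa hpe hadj hsa hae hqf.symm hsq.symm
        (Ne.symm hes) haq
    have hN6 : ({s, a, b, e, f} : Finset V).card = 5 := by
      rw [card_insert_of_notMem, card_insert_of_notMem, card_insert_of_notMem,
        card_insert_of_notMem, card_singleton]
      · simpa using hef
      · simp only [mem_insert, mem_singleton, not_or]
        refine ⟨?_, hbf.ne⟩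
        rintro rfl
        exact hnbp hpe.symm
      · simp only [mem_insert, mem_singleton, not_or]
        refine ⟨hab, hae.ne, ?_⟩
        rintro rfl
        exact hnaq hqf.symm
      · simp only [mem_insert, mem_singleton, not_or]
        exact ⟨hsa.ne, hsb.ne, Ne.symm hes, Ne.symm hfs⟩
    have hN7 : ({s, a, b, e, f} : Finset V) ⊆ G.neighborFinset c := by
      intro w hw
      simp only [mem_insert, mem_singleton] at hw
      rw [SimpleGraph.mem_neighborFinset]
      rcases hw with rfl | rfl | rfl | rfl | rfl
      · exact hsc.symm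
      · exact hac.symm
      · exact hbc'.symm
      · exact hce
      · exact hcf
    have haS : a ∉ S := fun h => hS s hs a h hsa
    have hbS : b ∉ S := fun h => hS s hs b h hsb
    have hcS : c ∉ S := fun h => hS s hs c h hsc
    have hpS : p ∉ S := (mem_priv.1 hpP).1
    have hc6 : 6 ≤ G.degree c := hge c fun hc5 => by
      apply hcP
      apply priv_of_card hS hs hsc
      have h8 : ({s, a, b, e, f} : Finset V) = G.neighborFinset c :=
        eq_of_subset_of_card_le hN7 (by
          rw [hN6, SimpleGraph.card_neighborFinset_eq_degree, hc5])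
      rw [card_eq_one]
      refine ⟨s, ?_⟩
      ext t
      unfold nb
      rw [mem_filter, mem_singleton]
      constructor
      · rintro ⟨htS, hct⟩
        have h9 : t ∈ ({s, a, b, e, f} : Finset V) := by
          rw [h8, SimpleGraph.mem_neighborFinset]; exact hct
        simp only [mem_insert, mem_singleton] at h9
        rcases h9 with h | h | h | h | h
        · exact h
        · rw [h] at htS; exact absurd htS haS
        · rw [h] at htS; exact absurd htS hbS
        · rw [h] at htS; exact absurd htS heS
        · rw [h] at htS; exact absurd htS hfS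
      · intro h
        rw [h]
        exact ⟨hs, hsc.symm⟩
    have hrich : ∀ t, t ∈ S → t ≠ s → nb G S c = {s, t} → G.degree c ≤ G.degree t →
        Rich G S t := by
      intro t htS hts hnb hct
      by_cases ht7 : 7 ≤ G.degree t
      · exact rich_seven hf hS hmax hdeg htS ht7
      have ht6 : G.degree t = 6 := by omega
      have hc6' : G.degree c = 6 := by omega
      by_contra hnr
      unfold Rich at hnr
      have hPt : (priv G S t).card = 2 := by
        have := priv_le2 hf hS hmax hdeg htS (by omega)
        omega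
      have hctadj : G.Adj c t := by
        have : t ∈ nb G S c := by rw [hnb]; simp
        exact (mem_filter.1 this).2
      -- the exchanged set
      have hst : ({s, t} : Finset V) ⊆ S := by
        intro w hw
        simp only [mem_insert, mem_singleton] at hw
        rcases hw with rfl | rfl
        · exact hs
        · exact htS
      have hpE : p ∉ S \ {s, t} := fun h => hpS (mem_sdiff.1 h).1
      have hcE : c ∉ insert p (S \ {s, t}) := by
        rw [mem_insert]
        rintro (h | h)
        · exact hcp h
        · exact hcS (mem_sdiff.1 h).1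
      have hcno : ∀ w ∈ S \ {s, t}, ¬ G.Adj c w := by
        intro w hw h
        rw [mem_sdiff] at hw
        apply hw.2
        rw [← hnb]
        exact mem_filter.2 ⟨hw.1, h⟩
      have hpno : ∀ w ∈ S \ {s, t}, ¬ G.Adj p w := by
        intro w hw h
        rw [mem_sdiff] at hw
        apply hw.2
        rw [priv_only hpP hw.1 h]
        simp
      have hS' : IsStable G (insert c (insert p (S \ {s, t}))) := by
        intro u hu v hv huv
        rw [mem_insert, mem_insert] at hu hv
        rcases hu with rfl | rfl | hu <;> rcases hv with rfl | rfl | hv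
        · exact huv.ne rfl
        · exact hnpc huv
        · exact hcno v hv huv
        · exact hnpc huv.symm
        · exact huv.ne rfl
        · exact hpno v hv huv
        · exact hcno u hu huv.symm
        · exact hpno u hu huv.symm
        · exact hS u (mem_sdiff.1 hu).1 v (mem_sdiff.1 hv).1 huv
      have hw' : wt G (insert c (insert p (S \ {s, t}))) = wt G S := by
        have h10 : wt G (S \ {s, t}) + wt G {s, t} = wt G S := by
          unfold wt; exact sum_sdiff hst
        unfold wt at h10 ⊢
        rw [sum_insert hcE, sum_insert hpE, hc6', hdp p hpP, ← h10,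
          sum_insert (by rw [mem_singleton]; exact Ne.symm hts), sum_singleton, h5, ht6]
        push_cast
        ring
      have hdom := heaviest_dom hS' (fun T hT => by rw [hw']; exact hmax T hT) hdeg
      have hNc : insert t ({s, a, b, e, f} : Finset V) = G.neighborFinset c := by
        apply eq_of_subset_of_card_le
        · intro w hw
          rcases mem_insert.1 hw with h | h
          · rw [h, SimpleGraph.mem_neighborFinset]; exact hctadj
          · exact hN7 h
        · rw [card_insert_of_notMem, hN6, SimpleGraph.card_neighborFinset_eq_degree, hc6']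
          simp only [mem_insert, mem_singleton, not_or]
          refine ⟨hts, ?_, ?_, ?_, ?_⟩ <;> rintro rfl
          · exact haS htS
          · exact hbS htS
          · exact heS htS
          · exact hfS htS
      have hde : d ≠ e := by
        rintro rfl
        exact noC4 hf hG hn (hdp p hpP) hadj hsp.symm hpa hpe hsq.symm hsa hae hqd.symm
          (Ne.symm haq) (Ne.symm hes)
      have hNp : ({s, q, a, e, d} : Finset V) = G.neighborFinset p := by
        apply eq_of_subset_of_card_le
        · intro w hw
          simp only [mem_insert, mem_singleton] at hw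
          rw [SimpleGraph.mem_neighborFinset]
          rcases hw with rfl | rfl | rfl | rfl | rfl
          · exact hsp.symm
          · exact hadj
          · exact hpa
          · exact hpe
          · exact hpd
        · rw [SimpleGraph.card_neighborFinset_eq_degree, hdp p hpP,
            card_insert_of_notMem, card_insert_of_notMem, card_insert_of_notMem,
            card_insert_of_notMem, card_singleton]
          · simpa using Ne.symm hde
          · simp only [mem_insert, mem_singleton, not_or]
            refine ⟨hae.ne, ?_⟩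
            rintro rfl
            exact hnaq hqd.symm
          · simp only [mem_insert, mem_singleton, not_or]
            exact ⟨Ne.symm haq, Ne.symm hqe, hqd.ne⟩
          · simp only [mem_insert, mem_singleton, not_or]
            exact ⟨hsq.ne, hsa.ne, Ne.symm hes, Ne.symm hds⟩
      have hef' : ∀ u, u ∈ priv G S t → u = e ∨ u = f := by
        intro u hu
        have huS := (mem_priv.1 hu).1
        have hus : ¬ G.Adj u s := fun h => hts (priv_only hu hs h).symm
        have hu6 : G.degree u ≤ 6 := by
          have h3 := exch (T := {u}) (R := {t}) hS hmax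
            (by
              intro v hv w hw hvw
              rw [mem_singleton] at hv hw
              rw [hv, hw] at hvw
              exact hvw.ne rfl)
            (by
              rw [disjoint_left]
              intro v hv
              rw [mem_singleton] at hv
              rw [hv]; exact huS)
            (singleton_subset_iff.2 htS)
            (by
              intro v hv w hw hvw
              rw [mem_singleton] at hv
              rw [hv] at hvw
              rw [mem_singleton]
              exact priv_only hu hw hvw)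
          unfold wt at h3
          rw [sum_singleton, sum_singleton, ht6] at h3
          have h4 : (G.degree u : ℤ) ≤ 6 := by push_cast at h3; linarith
          exact_mod_cast h4
        have huS' : u ∉ insert c (insert p (S \ {s, t})) := by
          rw [mem_insert, mem_insert]
          rintro (h | h | h)
          · rw [h] at hus; exact hus hsc.symm
          · rw [h] at hus; exact hus hsp.symm
          · exact huS (mem_sdiff.1 h).1
        obtain ⟨r, hr⟩ := hdom u huS'
        rw [mem_filter, mem_insert, mem_insert, mem_sdiff] at hr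
        obtain ⟨hr1, hur⟩ := hr
        rcases hr1 with h | h | h
        · rw [h] at hur
          have h10 : u ∈ insert t ({s, a, b, e, f} : Finset V) := by
            rw [hNc, SimpleGraph.mem_neighborFinset]; exact hur.symm
          simp only [mem_insert, mem_singleton] at h10
          rcases h10 with h | h | h | h | h | h
          · rw [h] at huS; exact absurd htS huS
          · rw [h] at huS; exact absurd hs huS
          · rw [h] at hus; exact absurd hsa.symm hus
          · rw [h] at hus; exact absurd hsb.symm hus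
          · exact Or.inl h
          · exact Or.inr h
        · rw [h] at hur
          have h10 : u ∈ ({s, q, a, e, d} : Finset V) := by
            rw [hNp, SimpleGraph.mem_neighborFinset]; exact hur.symm
          simp only [mem_insert, mem_singleton] at h10
          rcases h10 with h | h | h | h | h
          · rw [h] at huS; exact absurd hs huS
          · rw [h] at hus; exact absurd hsq.symm hus
          · rw [h] at hus; exact absurd hsa.symm hus
          · exact Or.inl h
          · rw [h] at hu6; omega
        · exfalso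
          apply h.2
          rw [priv_only hu h.1 hur]
          simp
      obtain ⟨u, v, huv, hPuv⟩ := card_eq_two.1 hPt
      have hu : u ∈ priv G S t := by rw [hPuv]; simp
      have hv : v ∈ priv G S t := by rw [hPuv]; simp
      have huv' := heaviest_clique hS hmax hdeg htS (by omega) hu hv huv
      have htu := (priv_adj hu).symm
      have htv := (priv_adj hv).symm
      rcases hef' u hu with h1 | h1 <;> rcases hef' v hv with h2 | h2
      · exact huv (h1.trans h2.symm)
      · rw [h1] at htu huv'
        rw [h2] at htv huv'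
        exact no4 hf hctadj.symm htu htv hce hcf huv'
      · rw [h1] at htu huv'
        rw [h2] at htv huv'
        exact no4 hf hctadj.symm htu htv hcf hce huv'
      · exact huv (h1.trans h2.symm)
    have hpha := phi_a hS hmax hs h5 hqP (hdp q hqP) hsa hnaq haP fun t ht _ _ hat =>
      rich_seven hf hS hmax hdeg ht (ha7.trans hat)
    have hphb := phi_a hS hmax hs h5 hpP (hdp p hpP) hsb hnbp hbP fun t ht _ _ hbt =>
      rich_seven hf hS hmax hdeg ht (hb7.trans hbt)
    have hphc := phi_a hS hmax hs h5 hpP (hdp p hpP) hsc hnpc hcP hrich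
    have h1 : ∑ v ∈ G.neighborFinset s, phi G S v s ≤
        ∑ v ∈ G.neighborFinset s, (3 + (if v ∈ priv G S s then (3 : ℤ) else 0) +
          (if v = a then (-1 : ℤ) else 0) + (if v = b then (-1 : ℤ) else 0) +
          (if v = c then (-1 : ℤ) else 0)) := by
      apply sum_le_sum
      intro v hv
      rw [SimpleGraph.mem_neighborFinset] at hv
      by_cases hva : v = a
      · rw [hva, if_neg haP, if_pos rfl, if_neg hab, if_neg (Ne.symm hca)]
        linarith
      · by_cases hvb : v = b
        · rw [hvb, if_neg hbP, if_neg (Ne.symm hab), if_pos rfl, if_neg (Ne.symm hcb)]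
          linarith
        · by_cases hvc : v = c
          · rw [hvc, if_neg hcP, if_neg hca, if_neg hcb, if_pos rfl]
            linarith
          · rw [if_neg hva, if_neg hvb, if_neg hvc]
            have := phi_poor hS hs hv hl
            linarith
    rw [sum_add_distrib, sum_add_distrib, sum_add_distrib, sum_add_distrib, sum_const,
      sum_ite_mem, sum_const, sum_ite_eq', sum_ite_eq', sum_ite_eq',
      if_pos ((SimpleGraph.mem_neighborFinset _ _ _).2 hsa),
      if_pos ((SimpleGraph.mem_neighborFinset _ _ _).2 hsb),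
      if_pos ((SimpleGraph.mem_neighborFinset _ _ _).2 hsc),
      SimpleGraph.card_neighborFinset_eq_degree, nsmul_eq_mul, nsmul_eq_mul] at h1
    have h3 : ((G.neighborFinset s ∩ priv G S s).card : ℤ) ≤ 2 := by
      exact_mod_cast (card_le_card inter_subset_right).trans hle
    rw [h5] at h1 ⊢
    push_cast at h1 ⊢
    linarith
  · exact load_poor hS hs hl (by omega)

theorem partC (hn : 4 ≤ Fintype.card V) (hf : G.CliqueFree 4)
    (he : 4 * (G.edgeFinset.card : ℤ) < 11 * Fintype.card V - 12) : HasBipartiteCut G := by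
  by_contra hG
  have hdeg := deg_ge hn hG fun v _ ⟨Q, hQ, _⟩ => hf Q hQ
  by_cases hn' : 13 ≤ Fintype.card V
  · obtain ⟨S, hS, hmax⟩ := exists_heaviest (G := G)
    have h1 := load_sum hS (heaviest_dom hS hmax hdeg)
    have h2 : ∀ s ∈ S, 6 + ∑ v ∈ G.neighborFinset s, phi G S v s ≤
        8 * ((G.degree s : ℤ) - 2) := by
      intro s hs
      by_cases h5 : G.degree s = 5
      · exact load_light hf hG (by omega) hS hmax hdeg hs h5
      · have h6 := hdeg s
        by_cases hr : Rich G S s
        · exact load_rich hS hs hr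
        · apply load_poor hS hs hr
          have h7 : G.degree s ≤ 6 := by
            by_contra h7
            exact hr (rich_seven hf hS hmax hdeg hs (by omega))
          have := priv_le2 hf hS hmax hdeg hs (by omega)
          omega
    have h3 := sum_le_sum h2
    rw [sum_add_distrib, sum_const, nsmul_eq_mul, ← mul_sum] at h3
    have h4 := edges_ge hG hS
    linarith
  · have h1 := G.sum_degrees_eq_twice_card_edges
    have h2 : ∑ _v : V, 5 ≤ ∑ v : V, G.degree v := sum_le_sum fun v _ => hdeg v
    rw [sum_const, smul_eq_mul, card_univ, h1] at h2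
    omega

end

/-- **Main theorem.** Let `G` be a finite graph with `n ≥ 4` vertices and `e` edges. If `G` has no
`K_4` and `4 e < 11 n - 12`, then `G` has a bipartite cut. -/
theorem result {V : Type*} [Fintype V] [DecidableEq V] (G : SimpleGraph V) [DecidableRel G.Adj]
    (hn : 4 ≤ Fintype.card V) (hf : G.CliqueFree 4)
    (he : 4 * (G.edgeFinset.card : ℤ) < 11 * Fintype.card V - 12) : HasBipartiteCut G :=
  partC hn hf he

end Pool.Agent.Results.MP_aecbcf_co.CliqueFree
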