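import Pool.Agent.Lib.BipCut.ChenYu

/-!
# Bipartite vertex cuts in sparse graphs of fractional chromatic number at most four
-/

set_option autoImplicit false

namespace Pool.Agent.Results.MP_aecbcf_co.FourColourable

open Finset Pool.Agent.Lib.BipCut

variable {V : Type*}

/-- A bipartite cut of `G`: a set `M` of vertices such that `G - M` is disconnected (there are two
vertices of `G - M` that no path of `G - M` joins) and the induced subgraph `G[M]` is bipartite. -/
def HasBipartiteCut (G : SimpleGraph V) : Prop :=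
  ∃ M : Set V, (G.induce M).Colorable 2 ∧ ¬ (G.induce Mᶜ).Preconnected

/-- `S` is a stable (independent) set of vertices. -/
def IsStable (G : SimpleGraph V) (S : Finset V) : Prop := ∀ x ∈ S, ∀ y ∈ S, ¬ G.Adj x y

section

variable [Fintype V] [DecidableEq V] {G : SimpleGraph V}

theorem sy_adj : Sy G.Adj := fun _ _ h => h.symm

/-- two stable sets whose union separates form a bipartite cut -/
theorem cut_of_sep {S M L R : Finset V} (hS : IsStable G S) (hM : Stab G.Adj M)
    (h : Sep G.Adj Sᶜ M L R) : HasBipartiteCut G := by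
  classical
  refine ⟨(M ∪ S : Finset V), ?_, ?_⟩
  · refine ⟨SimpleGraph.Coloring.mk (fun x => if x.1 ∈ S then (0 : Fin 2) else 1) ?_⟩
    rintro ⟨x, hx⟩ ⟨y, hy⟩ hxy
    have hxy' : G.Adj x y := hxy
    rw [mem_coe, mem_union] at hx hy
    by_cases hxS : x ∈ S
    · by_cases hyS : y ∈ S
      · exact absurd hxy' (hS x hxS y hyS)
      · simp [hxS, hyS]
    · by_cases hyS : y ∈ S
      · simp [hxS, hyS]
      · exact absurd hxy' (hM x (hx.resolve_right hxS) y (hy.resolve_right hyS))
  · intro hP
    obtain ⟨a, ha⟩ := h.nel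
    obtain ⟨b, hb⟩ := h.ner
    have hout : ∀ x, x ∈ L ∪ R → x ∈ ((M ∪ S : Finset V) : Set V)ᶜ := by
      intro x hx hx'
      have hxS : x ∈ Sᶜ := by
        rw [h.union, union_assoc]; exact mem_union_right _ hx
      rw [mem_compl] at hxS
      rw [mem_coe, mem_union] at hx'
      rcases hx' with hx' | hx'
      · rcases mem_union.1 hx with hx | hx
        · exact disjoint_left.1 h.ml hx' hx
        · exact disjoint_left.1 h.mr hx' hx
      · exact hxS hx'
    have hr := hP ⟨a, hout a (mem_union_left _ ha)⟩ ⟨b, hout b (mem_union_right _ hb)⟩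
    have key : ∀ x y : (((M ∪ S : Finset V) : Set V)ᶜ : Set V),
        (G.induce ((M ∪ S : Finset V) : Set V)ᶜ).Walk x y → x.1 ∈ L → y.1 ∈ L := by
      intro x y w
      induction w with
      | nil => exact id
      | @cons x y z hxy _ ih =>
        intro hx
        apply ih
        have hxy' : G.Adj x.1 y.1 := hxy
        have hy := y.2
        have hyM : y.1 ∉ M := fun h' => hy (by rw [mem_coe]; exact mem_union_left _ h')
        have hyS : y.1 ∉ S := fun h' => hy (by rw [mem_coe]; exact mem_union_right _ h')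
        have hyU : y.1 ∈ M ∪ L ∪ R := by rw [← h.union]; exact mem_compl.2 hyS
        rcases mem_union.1 hyU with h1 | h1
        · exact (mem_union.1 h1).resolve_left hyM
        · exact absurd hxy' (h.no _ hx _ h1)
    obtain ⟨w⟩ := hr
    exact disjoint_left.1 h.lr (key _ _ w ha) hb

variable [DecidableRel G.Adj]

theorem m2_compl_ge (hG : ¬ HasBipartiteCut G) {S : Finset V} (hS : IsStable G S) :
    4 * ((Sᶜ : Finset V).card : ℤ) - 6 ≤ m2 G.Adj Sᶜ := by
  obtain ⟨k, hk⟩ := m2_even sy_adj (fun x => G.loopless.irrefl x) (Sᶜ : Finset V) (r := G.Adj)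
  by_contra hcon
  push Not at hcon
  have h1 : m2 G.Adj Sᶜ + 8 ≤ 4 * (Sᶜ : Finset V).card := by omega
  have hpos : 0 < (Sᶜ : Finset V).card := by omega
  obtain ⟨u, hu⟩ := card_pos.1 hpos
  rcases chen_yu _ G.Adj sy_adj (fun x => G.loopless.irrefl x) Sᶜ rfl h1 u hu with
    ⟨M, L, R, h, hM, -⟩ | ⟨L, R, h⟩
  · exact hG (cut_of_sep hS hM h)
  · refine hG (cut_of_sep hS ?_ h)
    intro x hx y hy hxy
    rw [mem_singleton] at hx hy
    subst hx; subst hy
    exact G.loopless.irrefl _ hxy

theorem m2_compl (S : Finset V) (hS : IsStable G S) :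
    m2 G.Adj univ = m2 G.Adj Sᶜ + 2 * ∑ v ∈ S, G.degree v := by
  induction S using Finset.induction_on with
  | empty => simp
  | insert a S ha ih =>
    have hS' : IsStable G S := fun x hx y hy => hS x (mem_insert_of_mem hx) y (mem_insert_of_mem hy)
    rw [ih hS', sum_insert ha]
    have h1 : Sᶜ = insert a (insert a S)ᶜ := by
      ext x
      simp only [mem_compl, mem_insert, not_or]
      by_cases h : x = a
      · simp [h, ha]
      · simp [h]
    have h2 : ((insert a S)ᶜ.filter fun x => G.Adj a x) = G.neighborFinset a := by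
      ext x
      rw [mem_filter, SimpleGraph.mem_neighborFinset, mem_compl]
      exact ⟨fun h => h.2, fun h => ⟨fun h' => hS a (mem_insert_self _ _) x h' h, h⟩⟩
    have h3 : m2 G.Adj Sᶜ = m2 G.Adj (insert a S)ᶜ + 2 * G.degree a := by
      conv_lhs => rw [h1]
      rw [m2_insert sy_adj (fun x => G.loopless.irrefl x) (by simp), h2,
        SimpleGraph.card_neighborFinset_eq_degree]
    rw [h3]
    ring

theorem m2_univ : m2 G.Adj univ = 2 * G.edgeFinset.card := by
  rw [← G.sum_degrees_eq_twice_card_edges]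
  unfold m2
  rw [card_filter, sum_product]
  apply sum_congr rfl
  intro v _
  rw [← card_filter]
  simp only
  rw [← SimpleGraph.card_neighborFinset_eq_degree]
  congr 1
  ext x
  simp

/-- every graph without a bipartite cut satisfies this inequality for each stable set -/
theorem edges_ge (hG : ¬ HasBipartiteCut G) {S : Finset V} (hS : IsStable G S) :
    2 * (Fintype.card V : ℤ) - 3 + ∑ v ∈ S, ((G.degree v : ℤ) - 2) ≤ G.edgeFinset.card := by
  have h1 := m2_compl_ge hG hS
  have h2 := m2_compl S hS
  rw [m2_univ] at h2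
  have h3 : ((Sᶜ : Finset V).card : ℤ) = Fintype.card V - S.card := by
    rw [card_compl, Nat.cast_sub (card_le_univ S)]
  rw [h3] at h1
  have h4 : ∑ v ∈ S, ((G.degree v : ℤ) - 2) = (∑ v ∈ S, G.degree v : ℕ) - 2 * (S.card : ℤ) := by
    rw [sum_sub_distrib]
    push_cast
    rw [sum_const, nsmul_eq_mul]
    ring
  rw [h4]
  have h5 : (2 * G.edgeFinset.card : ℤ) = m2 G.Adj Sᶜ + 2 * (∑ v ∈ S, G.degree v : ℕ) := by
    exact_mod_cast h2
  linarith

/-- averaging over a fractional colouring -/
theorem fractional (hG : ¬ HasBipartiteCut G) {N b : ℕ} (S : Fin N → Finset V)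
    (hS : ∀ i, IsStable G (S i)) (hb : ∀ v, (univ.filter fun i => v ∈ S i).card = b) :
    2 * ((N : ℤ) - b) * Fintype.card V - 3 * N ≤ ((N : ℤ) - 2 * b) * G.edgeFinset.card := by
  have h1 : ∑ i : Fin N, (2 * (Fintype.card V : ℤ) - 3 + ∑ v ∈ S i, ((G.degree v : ℤ) - 2)) ≤
      ∑ _i : Fin N, (G.edgeFinset.card : ℤ) := sum_le_sum fun i _ => edges_ge hG (hS i)
  rw [sum_add_distrib, sum_const, sum_const, card_univ, Fintype.card_fin, nsmul_eq_mul,
    nsmul_eq_mul] at h1
  have h2 : ∑ i : Fin N, ∑ v ∈ S i, ((G.degree v : ℤ) - 2) = ∑ v : V, (b : ℤ) * ((G.degree v : ℤ) - 2) := by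
    have : ∀ i : Fin N, ∑ v ∈ S i, ((G.degree v : ℤ) - 2) =
        ∑ v : V, if v ∈ S i then ((G.degree v : ℤ) - 2) else 0 := by
      intro i
      rw [← sum_filter]
      congr 1
      ext x; simp
    rw [sum_congr rfl fun i _ => this i, sum_comm]
    apply sum_congr rfl
    intro v _
    rw [← sum_filter, sum_const, hb v, nsmul_eq_mul]
  have h3 : ∑ v : V, (b : ℤ) * ((G.degree v : ℤ) - 2) =
      b * (2 * G.edgeFinset.card) - 2 * b * Fintype.card V := by
    rw [← mul_sum, sum_sub_distrib, sum_const, card_univ, nsmul_eq_mul]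
    have := G.sum_degrees_eq_twice_card_edges
    have h4 : ∑ v : V, (G.degree v : ℤ) = 2 * G.edgeFinset.card := by exact_mod_cast this
    rw [h4]
    ring
  rw [h2, h3] at h1
  linarith

theorem colourable (hG : ¬ HasBipartiteCut G) {N : ℕ} (h : G.Colorable N) :
    2 * ((N : ℤ) - 1) * Fintype.card V - 3 * N ≤ ((N : ℤ) - 2) * G.edgeFinset.card := by
  obtain ⟨c⟩ := h
  have := fractional hG (N := N) (b := 1) (fun i => univ.filter fun v => c v = i) ?_ ?_
  · push_cast at this
    linarith
  · intro i x hx y hy hxy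
    rw [mem_filter] at hx hy
    exact c.valid hxy (hx.2.trans hy.2.symm)
  · intro v
    have : (univ.filter fun i => v ∈ (univ.filter fun w => c w = i)) = {c v} := by
      ext i
      simp [eq_comm]
    rw [this, card_singleton]

end

/-- **Main theorem.** Let `G` be a finite graph with `n` vertices and `e` edges.

1. If some stable set `S` satisfies `e < 2n - 3 + ∑_{v ∈ S} (deg v - 2)`, then `G` has a bipartite
   cut.
2. If `N` stable sets cover every vertex exactly `b` times and
   `(N - 2b) e < 2 (N - b) n - 3 N`, then `G` has a bipartite cut. (For `N = 4b`, that is, for graphs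
   of fractional chromatic number at most `4`, the condition reads `e < 3n - 6`.)
3. If `G` is 4-colourable and `e < 3n - 6`, then `G` has a bipartite cut.
4. If `G` is 5-colourable and `e < (8n - 15)/3`, then `G` has a bipartite cut. -/
theorem result {V : Type*} [Fintype V] [DecidableEq V] (G : SimpleGraph V) [DecidableRel G.Adj] :
    (∀ S : Finset V, IsStable G S →
      (G.edgeFinset.card : ℤ) < 2 * Fintype.card V - 3 + ∑ v ∈ S, ((G.degree v : ℤ) - 2) →
      HasBipartiteCut G) ∧
    (∀ (N b : ℕ) (S : Fin N → Finset V), (∀ i, IsStable G (S i)) →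
      (∀ v, (univ.filter fun i => v ∈ S i).card = b) →
      ((N : ℤ) - 2 * b) * G.edgeFinset.card < 2 * ((N : ℤ) - b) * Fintype.card V - 3 * N →
      HasBipartiteCut G) ∧
    (G.Colorable 4 → (G.edgeFinset.card : ℤ) < 3 * Fintype.card V - 6 → HasBipartiteCut G) ∧
    (G.Colorable 5 → 3 * (G.edgeFinset.card : ℤ) < 8 * Fintype.card V - 15 →
      HasBipartiteCut G) := by
  refine ⟨fun S hS h => ?_, fun N b S hS hb h => ?_, fun hc h => ?_, fun hc h => ?_⟩
  · by_contra hG
    exact absurd h (not_lt.2 (edges_ge hG hS))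
  · by_contra hG
    exact absurd h (not_lt.2 (fractional hG S hS hb))
  · by_contra hG
    have := colourable hG hc
    push_cast at this
    linarith
  · by_contra hG
    have := colourable hG hc
    push_cast at this
    linarith

end Pool.Agent.Results.MP_aecbcf_co.FourColourable
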