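import Pool.Agent.Lib.MP_aecbcf_co.Five

/-!
# Bipartite cuts: deleting a set of vertices from a 4-colourable graph

`MP_aecbcf.HasBipartiteCut G`: there are pairwise disjoint sets `M`, `L`, `R` with union `V`, with
`L`, `R` non-empty, no edge between `L` and `R`, and `G[M]` two-colourable.

`MP_aecbcf.inner G W`: the number of edges of `G` with both ends in `W`.

`MP_aecbcf.cost G W w`: for a vertex `w` of degree `d`, the number `max (2d - 9) 0` if `w` lies in a
`K₄` of `G` or has a neighbour in `W`, and `max (2d - 10) 0` otherwise.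
-/

set_option autoImplicit false

namespace Pool.Agent.Results.MP_aecbcf_co.KempeHoles

open MP_aecbcf

universe u

/-- **Theorem.**  (1) If `G - W` is 4-colourable and
`|E| + e(W) + ∑_{w ∈ W} cost(w) < 3n - 6` then `G` has a bipartite cut.
(2) Every 5-colourable `K₄`-free graph with `n ≥ 4` vertices and fewer than `(25n - 30)/9` edges has
a bipartite cut. -/
theorem result :
    (∀ (V : Type u) [Fintype V] (G : SimpleGraph V) [DecidableRel G.Adj] (W : Finset V),
      4 ≤ Fintype.card V → (G.induce {v | v ∉ W}).Colorable 4 →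
      G.edgeFinset.card + inner G W + ∑ w ∈ W, cost G W w + 6 < 3 * Fintype.card V →
      HasBipartiteCut G) ∧
    (∀ (V : Type u) [Fintype V] (G : SimpleGraph V) [DecidableRel G.Adj],
      4 ≤ Fintype.card V → G.Colorable 5 → G.CliqueFree 4 →
      9 * G.edgeFinset.card + 30 < 25 * Fintype.card V →
      HasBipartiteCut G) := by
  refine ⟨?_, ?_⟩
  · intro V _ G _ W hn hc hlt
    by_contra hcut
    obtain ⟨c⟩ := hc
    have h := ineqA G hn hcut W (by
      classical
      refine ⟨fun v => if h : v ∉ W then c ⟨v, h⟩ else 0, fun u v hu hv huv => ?_⟩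
      simp only [dif_pos hu, dif_pos hv]
      exact c.valid (show (G.induce {v | v ∉ W}).Adj ⟨u, hu⟩ ⟨v, hv⟩ from huv))
    omega
  · intro V _ G _ hn h5 hK hlt
    by_contra hcut
    have h := ineq5free G hn hcut h5 hK
    omega

end Pool.Agent.Results.MP_aecbcf_co.KempeHoles
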